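import Pool.Agent.H86.DB.Targets

/-!
Bounds for the smoothability defect: row PE, a solution of the recursion below the number of
partitions.
-/

open Finset

namespace Pool.Agent.H90.DB

open Pool.Agent.H86.DB

/-- the number of partitions of `n` with parts at most `m` -/
def R : ℕ → ℕ → ℕ
  | 0, n => if n = 0 then 1 else 0
  | m + 1, n => ∑ i ∈ range (n / (m + 1) + 1), R m (n - i * (m + 1))

theorem R_zero_left (n : ℕ) : R 0 n = if n = 0 then 1 else 0 := by rw [R]

theorem R_succ (m n : ℕ) :
    R (m + 1) n = ∑ i ∈ range (n / (m + 1) + 1), R m (n - i * (m + 1)) := by rw [R]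

theorem R_small {m n : ℕ} (h : n < m + 1) : R (m + 1) n = R m n := by
  rw [R_succ, Nat.div_eq_of_lt h]
  simp

theorem R_rec {m n : ℕ} (h : m + 1 ≤ n) : R (m + 1) n = R m n + R (m + 1) (n - (m + 1)) := by
  rw [R_succ, R_succ, Nat.div_eq_sub_div (Nat.succ_pos m) h, sum_range_succ', add_comm]
  congr 1
  · simp
  · apply sum_congr rfl
    intro i _
    congr 1
    rw [Nat.sub_sub]
    congr 1
    ring

theorem R_zero (m : ℕ) : R m 0 = 1 := by
  induction m with
  | zero => rw [R_zero_left]; simp
  | succ m ih => rw [R_small (Nat.succ_pos m), ih]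

theorem R_mono_m (m n : ℕ) : R m n ≤ R (m + 1) n := by
  by_cases h : n < m + 1
  · rw [R_small h]
  · rw [R_rec (by omega)]
    omega

theorem R_one (n : ℕ) : R 1 n = 1 := by
  induction n with
  | zero => exact R_zero 1
  | succ n ih =>
    rw [R_rec (m := 0) (by omega), R_zero_left]
    simp [ih]

theorem R_mono_n : ∀ m n : ℕ, R (m + 1) n ≤ R (m + 1) (n + 1) := by
  intro m
  induction m with
  | zero => intro n; rw [zero_add, R_one, R_one]
  | succ m ih =>
    intro n
    induction n using Nat.strong_induction_on with
    | _ n ihn =>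
      rcases lt_or_ge (n + 1) (m + 1 + 1) with h | h
      · rw [R_small (m := m + 1) (n := n) (by omega), R_small (m := m + 1) (n := n + 1) h]
        exact ih n
      · rcases lt_or_ge n (m + 1 + 1) with h' | h'
        · rw [R_small (m := m + 1) (n := n) h']
          exact (ih n).trans (R_mono_m (m + 1) (n + 1))
        · rw [R_rec (m := m + 1) (n := n) h', R_rec (m := m + 1) (n := n + 1) h]
          have h1 : n + 1 - (m + 1 + 1) = (n - (m + 1 + 1)) + 1 := by omega
          rw [h1]
          exact Nat.add_le_add (ih n) (ihn _ (by omega))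

theorem R_mono_n' {m n : ℕ} (hm : 1 ≤ m) : R m n ≤ R m (n + 1) := by
  obtain ⟨m, rfl⟩ : ∃ i, m = i + 1 := ⟨m - 1, by omega⟩
  exact R_mono_n m n

/-- the number of partitions of `d` with all parts but one at most `m` -/
def E (m d : ℕ) : ℕ := R m d + ∑ n ∈ range (d - m), R m n

theorem E_pos (m d : ℕ) (hd : 1 ≤ d) : 1 ≤ E m d := by
  unfold E
  rcases lt_or_ge m d with h | h
  · have h1 : R m 0 ≤ ∑ n ∈ range (d - m), R m n :=
      single_le_sum (f := fun n => R m n) (fun _ _ => Nat.zero_le _) (mem_range.2 (by omega))
    rw [R_zero] at h1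
    omega
  · have h1 : Monotone (R m) := monotone_nat_of_le_succ fun n => R_mono_n' (by omega)
    have h2 := h1 (Nat.zero_le d)
    rw [R_zero] at h2
    omega

theorem E_succ_left (m d : ℕ) : E m d ≤ E (m + 1) d := by
  unfold E
  rcases le_or_gt d m with h | h
  · have h1 : d - m = 0 := by omega
    have h2 : d - (m + 1) = 0 := by omega
    rw [h1, h2, range_zero, sum_empty, sum_empty]
    have := R_mono_m m d
    omega
  · rw [R_rec (m := m) (n := d) (by omega)]
    have h1 : d - m = (d - (m + 1)) + 1 := by omega
    rw [h1, sum_range_succ]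
    have h2 : ∑ n ∈ range (d - (m + 1)), R m n ≤ ∑ n ∈ range (d - (m + 1)), R (m + 1) n :=
      sum_le_sum fun n _ => R_mono_m m n
    have h3 := R_mono_m m (d - (m + 1))
    omega

theorem E_succ_right (m d : ℕ) (hd : 1 ≤ d) : E m d ≤ E m (d + 1) := by
  unfold E
  have h1 : R m d ≤ R m (d + 1) := by
    rcases Nat.eq_zero_or_pos m with h | h
    · subst h
      rw [R_zero_left, if_neg (by omega)]
      exact Nat.zero_le _
    · exact R_mono_n' h
  have h2 : ∑ n ∈ range (d - m), R m n ≤ ∑ n ∈ range (d + 1 - m), R m n :=
    sum_le_sum_of_subset (range_subset_range.2 (by omega))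
  omega

theorem E_mono_left {m m' : ℕ} (d : ℕ) (h : m ≤ m') : E m d ≤ E m' d := by
  induction m', h using Nat.le_induction with
  | base => exact le_rfl
  | succ n _ ih => exact ih.trans (E_succ_left n d)

theorem E_mono_right {d d' : ℕ} (m : ℕ) (hd : 1 ≤ d) (h : d ≤ d') : E m d ≤ E m d' := by
  induction d', h using Nat.le_induction with
  | base => exact le_rfl
  | succ n hn ih => exact ih.trans (E_succ_right m n (by omega))

theorem sum_rec (m K : ℕ) : ∑ n ∈ range K, R (m + 1) n =
    ∑ n ∈ range K, R m n + ∑ n ∈ range (K - (m + 1)), R (m + 1) n := by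
  induction K with
  | zero => simp
  | succ K ih =>
    rw [sum_range_succ, sum_range_succ, ih]
    rcases lt_or_ge K (m + 1) with h | h
    · rw [R_small h]
      have h1 : K - (m + 1) = 0 := by omega
      have h2 : K + 1 - (m + 1) = 0 := by omega
      rw [h1, h2, range_zero, sum_empty]
      ring
    · rw [R_rec h]
      have h2 : K + 1 - (m + 1) = (K - (m + 1)) + 1 := by omega
      rw [h2, sum_range_succ]
      ring

theorem E_rec (m d : ℕ) (hm : 1 ≤ m) (hd : m + 1 ≤ d) :
    E (m - 1) (d - 1) + E m (d - m) ≤ E m d := by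
  obtain ⟨m, rfl⟩ : ∃ i, m = i + 1 := ⟨m - 1, by omega⟩
  unfold E
  rw [R_rec (m := m) (n := d) (by omega), sum_rec m (d - (m + 1)), Nat.add_sub_cancel]
  have h1 : d - 1 - m = d - (m + 1) := by omega
  rw [h1]
  have h2 : R m (d - 1) ≤ R m d := by
    rcases Nat.eq_zero_or_pos m with h | h
    · subst h
      rw [R_zero_left, if_neg (by omega)]
      exact Nat.zero_le _
    · have := R_mono_n' (m := m) (n := d - 1) h
      have h3 : d - 1 + 1 = d := by omega
      rwa [h3] at this
  omega

/-- one more part -/
def ins (m n : ℕ) (h : m + 1 ≤ n) (l : Nat.Partition (n - (m + 1))) : Nat.Partition n where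
  parts := (m + 1) ::ₘ l.parts
  parts_pos := by
    intro i hi
    rw [Multiset.mem_cons] at hi
    rcases hi with rfl | hi
    · omega
    · exact l.parts_pos hi
  parts_sum := by
    rw [Multiset.sum_cons, l.parts_sum]
    omega

theorem ins_inj (m n : ℕ) (h : m + 1 ≤ n) : Function.Injective (ins m n h) := by
  intro l l' hl
  have h1 : (m + 1) ::ₘ l.parts = (m + 1) ::ₘ l'.parts := congrArg Nat.Partition.parts hl
  exact Nat.Partition.ext ((Multiset.cons_inj_right _).1 h1)

/-- the partitions with parts at most `m` -/
def PS (m n : ℕ) : Finset (Nat.Partition n) := univ.filter fun l => ∀ i ∈ l.parts, i ≤ m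

theorem R_le_card : ∀ m n : ℕ, R m n ≤ (PS m n).card := by
  intro m
  induction m with
  | zero =>
    intro n
    rw [R_zero_left]
    split_ifs with h
    · subst h
      apply card_pos.2
      refine ⟨⟨0, by simp, rfl⟩, ?_⟩
      unfold PS
      rw [mem_filter]
      exact ⟨mem_univ _, fun i hi => absurd hi (Multiset.notMem_zero i)⟩
    · exact Nat.zero_le _
  | succ m ih =>
    intro n
    have hsub : PS m n ⊆ PS (m + 1) n := by
      intro l hl
      unfold PS at *
      rw [mem_filter] at *
      exact ⟨hl.1, fun i hi => (hl.2 i hi).trans (Nat.le_succ m)⟩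
    induction n using Nat.strong_induction_on with
    | _ n ihn =>
      rcases lt_or_ge n (m + 1) with h | h
      · rw [R_small h]
        exact (ih n).trans (card_le_card hsub)
      · rw [R_rec h]
        have hsub' : PS m (n - (m + 1)) ⊆ PS (m + 1) (n - (m + 1)) := by
          intro l hl
          unfold PS at *
          rw [mem_filter] at *
          exact ⟨hl.1, fun i hi => (hl.2 i hi).trans (Nat.le_succ m)⟩
        have h1 := ihn (n - (m + 1)) (by omega) hsub'
        have h2 : Disjoint (PS m n) ((PS (m + 1) (n - (m + 1))).image (ins m n h)) := by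
          rw [disjoint_left]
          intro l hl hl'
          rw [mem_image] at hl'
          obtain ⟨l₀, _, rfl⟩ := hl'
          unfold PS at hl
          rw [mem_filter] at hl
          have := hl.2 (m + 1) (Multiset.mem_cons_self _ _)
          omega
        have h3 : PS m n ∪ (PS (m + 1) (n - (m + 1))).image (ins m n h) ⊆ PS (m + 1) n := by
          apply union_subset hsub
          intro l hl
          rw [mem_image] at hl
          obtain ⟨l₀, hl₀, rfl⟩ := hl
          unfold PS at *
          rw [mem_filter] at *
          refine ⟨mem_univ _, fun i hi => ?_⟩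
          have hi' : i ∈ (m + 1) ::ₘ l₀.parts := hi
          rw [Multiset.mem_cons] at hi'
          rcases hi' with rfl | hi'
          · exact le_rfl
          · exact hl₀.2 i hi'
        calc R m n + R (m + 1) (n - (m + 1)) ≤
              (PS m n).card + (PS (m + 1) (n - (m + 1))).card := Nat.add_le_add (ih n) h1
          _ = (PS m n ∪ (PS (m + 1) (n - (m + 1))).image (ins m n h)).card := by
              rw [card_union_of_disjoint h2, card_image_of_injective _ (ins_inj m n h)]
          _ ≤ _ := card_le_card h3

theorem E_le_card (m d : ℕ) : E m d ≤ Fintype.card (Nat.Partition d) := by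
  have h1 : E m d ≤ E (max m d) d := E_mono_left d (le_max_left _ _)
  refine h1.trans ?_
  have h2 : d - max m d = 0 := by omega
  unfold E
  rw [h2, range_zero, sum_empty, add_zero]
  refine (R_le_card _ _).trans ?_
  rw [← card_univ]
  exact card_le_card (filter_subset _ _)

theorem pf_PE : T_PE := by
  refine ⟨E, ⟨E_pos, ?_, E_rec⟩, E_le_card⟩
  intro m m' d d' hd hm hdd
  exact (E_mono_left d hm).trans (E_mono_right m' hd hdd)

end Pool.Agent.H90.DB
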