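import Pool.Agent.H86.DB.Targets

/-!
Bounds for the smoothability defect: row INT, the integration lemma.
-/

open Module

namespace Pool.Agent.H90.DB

open Pool.Agent.H12.Defect Pool.Agent.H15.Defect Pool.Agent.H86.DB

universe u

section

variable {k : Type u} [Field k] {E C A : Type u} [CommRing E] [Algebra k E] [CommRing C]
  [Algebra k C] [CommRing A] [Algebra k A]

/-- `ξ + X` -/
noncomputable def Dx (ξ : C) : PowerSeries C := PowerSeries.C ξ + PowerSeries.X

theorem exists_q {ξ : C} {s : ℕ} (hξ : ξ ^ s = 0) :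
    ∃ q : PowerSeries C, (PowerSeries.X : PowerSeries C) ^ s = Dx ξ * q := by
  have h1 : (PowerSeries.X : PowerSeries C) - (-PowerSeries.C ξ) ∣
      PowerSeries.X ^ s - (-PowerSeries.C ξ) ^ s := sub_dvd_pow_sub_pow _ _ s
  have h2 : (-PowerSeries.C ξ : PowerSeries C) ^ s = 0 := by
    rw [neg_pow, ← map_pow, hξ, map_zero, mul_zero]
  rw [h2, sub_zero] at h1
  obtain ⟨q, hq⟩ := h1
  refine ⟨q, ?_⟩
  rw [hq, Dx]
  ring

/-- `ξ + X` is a nonzerodivisor for nilpotent `ξ` -/
theorem xi_cancel {ξ : C} {s : ℕ} (hξ : ξ ^ s = 0) {u v : PowerSeries C}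
    (h : Dx ξ * u = Dx ξ * v) : u = v := by
  obtain ⟨q, hq⟩ := exists_q hξ
  apply PowerSeries.X_pow_mul_cancel (k := s)
  rw [hq]
  calc Dx ξ * q * u = q * (Dx ξ * u) := by ring
    _ = q * (Dx ξ * v) := by rw [h]
    _ = Dx ξ * q * v := by ring

theorem cc_map (φ : E →ₐ[k] C) (p : PowerSeries E) :
    PowerSeries.constantCoeff (PowerSeries.mapAlgHom φ p) = φ (PowerSeries.constantCoeff p) := by
  rw [PowerSeries.mapAlgHom_apply, ← PowerSeries.coeff_zero_eq_constantCoeff_apply,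
    ← PowerSeries.coeff_zero_eq_constantCoeff_apply, PowerSeries.coeff_map]
  rfl

theorem cc_D (ξ : C) : PowerSeries.constantCoeff (Dx ξ) = ξ := by
  rw [Dx]
  simp

theorem map_X (φ : E →ₐ[k] C) : PowerSeries.mapAlgHom φ (PowerSeries.X : PowerSeries E) =
    PowerSeries.X := by
  rw [PowerSeries.mapAlgHom_apply]
  simp

theorem map_C (φ : E →ₐ[k] C) (e : E) : PowerSeries.mapAlgHom φ (PowerSeries.C e) =
    PowerSeries.C (φ e) := by
  rw [PowerSeries.mapAlgHom_apply]
  simp

/-- the subalgebra -/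
noncomputable def St (α β : E →ₐ[k] C) (ξ : C) : Subalgebra k (PowerSeries E) where
  carrier := {p | ∃ u, PowerSeries.mapAlgHom β p - PowerSeries.mapAlgHom α p = Dx ξ * u}
  mul_mem' := by
    rintro p p' ⟨u, hu⟩ ⟨u', hu'⟩
    refine ⟨PowerSeries.mapAlgHom α p * u' + PowerSeries.mapAlgHom α p' * u + Dx ξ * u * u', ?_⟩
    have h1 : PowerSeries.mapAlgHom β p = PowerSeries.mapAlgHom α p + Dx ξ * u := by
      rw [← hu]; ring
    have h2 : PowerSeries.mapAlgHom β p' = PowerSeries.mapAlgHom α p' + Dx ξ * u' := by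
      rw [← hu']; ring
    rw [map_mul, map_mul, h1, h2]
    ring
  add_mem' := by
    rintro p p' ⟨u, hu⟩ ⟨u', hu'⟩
    refine ⟨u + u', ?_⟩
    rw [map_add, map_add, mul_add, ← hu, ← hu']
    ring
  algebraMap_mem' := fun r => ⟨0, by rw [AlgHom.commutes, AlgHom.commutes, sub_self, mul_zero]⟩

variable (α β : E →ₐ[k] C) (ξ : C)

/-- the quotient by `ξ + X` -/
noncomputable def uu (p : St α β ξ) : PowerSeries C := p.2.choose

theorem uu_spec (p : St α β ξ) : PowerSeries.mapAlgHom β p.1 - PowerSeries.mapAlgHom α p.1 =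
    Dx ξ * uu α β ξ p := p.2.choose_spec

variable {ξ} {s : ℕ}

theorem uu_eq (hξ : ξ ^ s = 0) (p : St α β ξ) {u : PowerSeries C}
    (h : PowerSeries.mapAlgHom β p.1 - PowerSeries.mapAlgHom α p.1 = Dx ξ * u) :
    uu α β ξ p = u := by
  apply xi_cancel hξ
  rw [← h, uu_spec]

/-- the homomorphism -/
noncomputable def Psi (hξ : ξ ^ s = 0) (ι : E →ₐ[k] A) (L : C →+ A)
    (h1 : ∀ e c, ι e * L c = L (α e * c)) (h2 : ∀ c c', L c * L c' = L (ξ * c * c')) :
    St α β ξ →ₐ[k] A where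
  toFun p := ι (PowerSeries.constantCoeff p.1) + L (PowerSeries.constantCoeff (uu α β ξ p))
  map_one' := by
    have h : uu α β ξ 1 = 0 := uu_eq α β hξ 1 (by
      change PowerSeries.mapAlgHom β 1 - PowerSeries.mapAlgHom α 1 = Dx ξ * 0
      rw [map_one, map_one, sub_self, mul_zero])
    rw [h, map_zero, map_zero, add_zero]
    change ι (PowerSeries.constantCoeff 1) = 1
    rw [map_one, map_one]
  map_mul' p p' := by
    have e1 := uu_spec α β ξ p
    have e2 := uu_spec α β ξ p'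
    have h : uu α β ξ (p * p') = PowerSeries.mapAlgHom α p.1 * uu α β ξ p' +
        PowerSeries.mapAlgHom α p'.1 * uu α β ξ p + Dx ξ * uu α β ξ p * uu α β ξ p' :=
      uu_eq α β hξ _ (by
        have e3 : PowerSeries.mapAlgHom β p.1 =
          PowerSeries.mapAlgHom α p.1 + Dx ξ * uu α β ξ p := by rw [← e1]; ring
        have e4 : PowerSeries.mapAlgHom β p'.1 =
          PowerSeries.mapAlgHom α p'.1 + Dx ξ * uu α β ξ p' := by rw [← e2]; ring
        change PowerSeries.mapAlgHom β (p.1 * p'.1) - PowerSeries.mapAlgHom α (p.1 * p'.1) = _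
        rw [map_mul, map_mul, e3, e4]
        ring)
    rw [h]
    change ι (PowerSeries.constantCoeff (p.1 * p'.1)) + _ = _
    simp only [map_mul, map_add, cc_map, cc_D]
    rw [← h1, ← h1, ← h2]
    ring
  map_zero' := by
    have h : uu α β ξ 0 = 0 := uu_eq α β hξ 0 (by
      change PowerSeries.mapAlgHom β 0 - PowerSeries.mapAlgHom α 0 = Dx ξ * 0
      rw [map_zero, map_zero, sub_self, mul_zero])
    rw [h, map_zero, map_zero, add_zero]
    change ι (PowerSeries.constantCoeff 0) = 0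
    rw [map_zero, map_zero]
  map_add' p p' := by
    have h : uu α β ξ (p + p') = uu α β ξ p + uu α β ξ p' :=
      uu_eq α β hξ _ (by
        change PowerSeries.mapAlgHom β (p.1 + p'.1) - PowerSeries.mapAlgHom α (p.1 + p'.1) = _
        rw [map_add, map_add, mul_add, ← uu_spec, ← uu_spec]
        ring)
    rw [h]
    change ι (PowerSeries.constantCoeff (p.1 + p'.1)) + _ = _
    simp only [map_add]
    ring
  commutes' r := by
    have h : uu α β ξ (algebraMap k _ r) = 0 := uu_eq α β hξ _ (by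
      change PowerSeries.mapAlgHom β (algebraMap k _ r) -
        PowerSeries.mapAlgHom α (algebraMap k _ r) = Dx ξ * 0
      rw [AlgHom.commutes, AlgHom.commutes, sub_self, mul_zero])
    rw [h, map_zero, map_zero, add_zero]
    change ι (PowerSeries.constantCoeff (algebraMap k (PowerSeries E) r)) = _
    have h3 : PowerSeries.constantCoeff (algebraMap k (PowerSeries E) r) = algebraMap k E r := by
      rw [PowerSeries.algebraMap_apply]
      simp
    rw [h3, AlgHom.commutes]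

theorem Psi_apply (hξ : ξ ^ s = 0) (ι : E →ₐ[k] A) (L : C →+ A)
    (h1 : ∀ e c, ι e * L c = L (α e * c)) (h2 : ∀ c c', L c * L c' = L (ξ * c * c'))
    (p : St α β ξ) {u : PowerSeries C}
    (h : PowerSeries.mapAlgHom β p.1 - PowerSeries.mapAlgHom α p.1 = Dx ξ * u) :
    Psi α β hξ ι L h1 h2 p = ι (PowerSeries.constantCoeff p.1) + L (PowerSeries.constantCoeff u) := by
  change ι (PowerSeries.constantCoeff p.1) + L (PowerSeries.constantCoeff (uu α β ξ p)) = _
  rw [uu_eq α β hξ p h]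

theorem main (hJ : T_JET.{u}) {N : ℕ} (hξ : ξ ^ s = 0) (ι : E →ₐ[k] A) (L : C →+ A)
    (h1 : ∀ e c, ι e * L c = L (α e * c)) (h2 : ∀ c c', L c * L c' = L (ξ * c * c'))
    (h3 : ∀ a : A, ∃ (e e' : E) (c : C), α e' = 0 ∧ β e' = c ∧ β e = α e + ξ * c ∧
      a = ι e + L c) (hE : Dle k E N) : Dle k A N := by
  let g : St α β ξ →ₐ[k] Jet E (s + 1) :=
    (Ideal.Quotient.mkₐ k (Ideal.span {(PowerSeries.X : PowerSeries E) ^ (s + 1)})).comp
      (St α β ξ).val
  have hg : ∀ p : St α β ξ, g p = Ideal.Quotient.mk _ p.1 := fun _ => rfl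
  have hX : (PowerSeries.X : PowerSeries E) ∈ St α β ξ :=
    ⟨0, by rw [map_X, map_X, sub_self, mul_zero]⟩
  have hker : RingHom.ker g.rangeRestrict.toRingHom ≤
      RingHom.ker (Psi α β hξ ι L h1 h2).toRingHom := by
    intro p hp
    rw [RingHom.mem_ker] at hp ⊢
    have hp' : g p = 0 := congrArg Subtype.val hp
    rw [hg, Ideal.Quotient.eq_zero_iff_mem, Ideal.mem_span_singleton] at hp'
    obtain ⟨r, hr⟩ := hp'
    obtain ⟨q, hq⟩ := exists_q hξ
    have e1 : PowerSeries.mapAlgHom β p.1 - PowerSeries.mapAlgHom α p.1 =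
        Dx ξ * (q * PowerSeries.X * (PowerSeries.mapAlgHom β r - PowerSeries.mapAlgHom α r)) := by
      rw [hr, map_mul, map_mul, map_pow, map_pow, map_X, map_X, pow_succ, hq]
      ring
    change Psi α β hξ ι L h1 h2 p = 0
    rw [Psi_apply α β hξ ι L h1 h2 p e1, hr]
    simp
  have hS : jX E (s + 1) ∈ g.range := ⟨⟨_, hX⟩, rfl⟩
  refine hJ k E A N (s + 1) hE g.range hS
    (AlgHom.liftOfSurjective g.rangeRestrict g.rangeRestrict_surjective
      (Psi α β hξ ι L h1 h2) hker) ?_ ?_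
  · apply AlgHom.liftOfSurjective_surjective
    intro a
    obtain ⟨e, e', c, he1, he2, he3, ha⟩ := h3 a
    have e1 : PowerSeries.mapAlgHom β (PowerSeries.C e + PowerSeries.X * PowerSeries.C e') -
        PowerSeries.mapAlgHom α (PowerSeries.C e + PowerSeries.X * PowerSeries.C e') =
        Dx ξ * PowerSeries.C c := by
      rw [map_add, map_add, map_mul, map_mul, map_X, map_X, map_C, map_C, map_C, map_C, he1, he2,
        he3, map_zero, map_add, map_mul, Dx]
      ring
    refine ⟨⟨PowerSeries.C e + PowerSeries.X * PowerSeries.C e', ⟨_, e1⟩⟩, ?_⟩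
    rw [Psi_apply α β hξ ι L h1 h2 _ e1, ha]
    simp
  · have h4 : (⟨jX E (s + 1), hS⟩ : g.range) = g.rangeRestrict ⟨_, hX⟩ := rfl
    rw [h4, AlgHom.liftOfSurjective_apply,
      Psi_apply α β hξ ι L h1 h2 ⟨_, hX⟩ (u := 0) (by rw [map_X, map_X, sub_self, mul_zero])]
    simp

end

theorem pf_INT (hJ : T_JET.{u}) : T_INT.{u} := by
  intro k _ A _ _ A₁ x N₁ N₂ hx hA h1 h2
  obtain ⟨s, hs⟩ := hx
  set I : Ideal A := (Ideal.span {x}).annihilator with hI
  have hker : I ≤ LinearMap.ker (LinearMap.toSpanSingleton A A x) := by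
    intro a ha
    rw [LinearMap.mem_ker, LinearMap.toSpanSingleton_apply, smul_eq_mul]
    rw [hI, Submodule.mem_annihilator] at ha
    exact ha x (Ideal.mem_span_singleton_self x)
  let L : (A ⧸ I) →ₗ[A] A := Submodule.liftQ I (LinearMap.toSpanSingleton A A x) hker
  have hL : ∀ c : A, L (Ideal.Quotient.mk I c) = c * x := fun c => rfl
  have hξ : (Ideal.Quotient.mk I x) ^ s = 0 := by rw [← map_pow, hs, map_zero]
  refine main (k := k) (E := A₁ × (A ⧸ I)) (C := A ⧸ I) (A := A)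
    ((Ideal.Quotient.mkₐ k I).comp (A₁.val.comp (AlgHom.fst k A₁ (A ⧸ I))))
    (AlgHom.snd k A₁ (A ⧸ I)) hJ hξ (A₁.val.comp (AlgHom.fst k A₁ (A ⧸ I))) L.toAddMonoidHom
    ?_ ?_ ?_ (h1.prod h2)
  · rintro ⟨e, _⟩ c
    obtain ⟨c, rfl⟩ := Ideal.Quotient.mk_surjective c
    change (e : A) * L (Ideal.Quotient.mk I c) = L (Ideal.Quotient.mk I (e : A) * Ideal.Quotient.mk I c)
    rw [← map_mul, hL, hL]
    ring
  · intro c c'
    obtain ⟨c, rfl⟩ := Ideal.Quotient.mk_surjective c
    obtain ⟨c', rfl⟩ := Ideal.Quotient.mk_surjective c'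
    change L (Ideal.Quotient.mk I c) * L (Ideal.Quotient.mk I c') =
      L (Ideal.Quotient.mk I x * Ideal.Quotient.mk I c * Ideal.Quotient.mk I c')
    have e : Ideal.Quotient.mk I x * Ideal.Quotient.mk I c * Ideal.Quotient.mk I c' =
      Ideal.Quotient.mk I (x * c * c') := by rw [map_mul, map_mul]
    rw [e, hL, hL, hL]
    ring
  · intro a
    obtain ⟨b, hb, c, hc⟩ := hA a
    refine ⟨(⟨b, hb⟩, Ideal.Quotient.mk I b + Ideal.Quotient.mk I x * Ideal.Quotient.mk I c),
      (0, Ideal.Quotient.mk I c), Ideal.Quotient.mk I c, ?_, rfl, rfl, ?_⟩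
    · change Ideal.Quotient.mk I ((0 : A₁) : A) = 0
      simp
    · change a = b + L (Ideal.Quotient.mk I c)
      rw [hL, hc]
      ring

end Pool.Agent.H90.DB
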